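import Mathlib

/-! A two-constraint homogeneous quadratic program in dimension four, with compact feasible set,
which has at least six strict local non-global minimizers. -/

open Filter Topology Matrix

namespace Pool.Agent.Results.MP_4a3f67_an.SixMinimizers

/-- The quadratic form `xᵀ A x`. -/
noncomputable def q {n : ℕ} (A : Matrix (Fin n) (Fin n) ℝ) (x : Fin n → ℝ) : ℝ := x ⬝ᵥ (A *ᵥ x)

/-- The feasible set `{x : q₁ x = 1, q₂ x ≤ 1}`. -/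
def feas {n : ℕ} (A₁ A₂ : Matrix (Fin n) (Fin n) ℝ) : Set (Fin n → ℝ) :=
  {x | q A₁ x = 1 ∧ q A₂ x ≤ 1}

/-- Strict local minimizers of `q₀` on the feasible set which are not global minimizers. -/
def StrictLocalNonglobal {n : ℕ} (A₀ A₁ A₂ : Matrix (Fin n) (Fin n) ℝ) (x : Fin n → ℝ) : Prop :=
  x ∈ feas A₁ A₂ ∧ (∀ᶠ y in 𝓝[feas A₁ A₂] x, y ≠ x → q A₀ x < q A₀ y) ∧
    ∃ y ∈ feas A₁ A₂, q A₀ y < q A₀ x

/-- The objective matrix. -/
noncomputable def M₀ : Matrix (Fin 4) (Fin 4) ℝ :=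
  !![-8, -8, 5/2, 4; -8, 0, -1/2, -2; 5/2, -1/2, 2, 0; 4, -2, 0, -18]

/-- The matrix of the equality constraint. -/
noncomputable def M₁ : Matrix (Fin 4) (Fin 4) ℝ :=
  !![1, 1/2, -1/4, 0; 1/2, 1, 1/2, 0; -1/4, 1/2, 1, 0; 0, 0, 0, 1]

/-- The matrix of the inequality constraint. -/
noncomputable def M₂ : Matrix (Fin 4) (Fin 4) ℝ :=
  !![1, 9/2, -3/4, -4; 9/2, 1, 3/4, 1; -3/4, 3/4, 1, 0; -4, 1, 0, 11]

lemma q0_eq (x : Fin 4 → ℝ) : q M₀ x = -8 * x 0 ^ 2 + 2 * x 2 ^ 2 - 18 * x 3 ^ 2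
    - 16 * x 0 * x 1 + 5 * x 0 * x 2 - x 1 * x 2 + 8 * x 0 * x 3 - 4 * x 1 * x 3 := by
  simp [q, M₀, dotProduct, Matrix.mulVec, Fin.sum_univ_four]
  ring

lemma q1_eq (x : Fin 4 → ℝ) : q M₁ x = x 0 ^ 2 + x 1 ^ 2 + x 2 ^ 2 + x 3 ^ 2 + x 0 * x 1
    - x 0 * x 2 / 2 + x 1 * x 2 := by
  simp [q, M₁, dotProduct, Matrix.mulVec, Fin.sum_univ_four]
  ring

lemma q2_eq (x : Fin 4 → ℝ) : q M₂ x = q M₁ x + 10 * x 3 ^ 2 + 8 * x 0 * x 1 - x 0 * x 2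
    + x 1 * x 2 / 2 - 8 * x 0 * x 3 + 2 * x 1 * x 3 := by
  rw [q1_eq]
  simp [q, M₂, dotProduct, Matrix.mulVec, Fin.sum_univ_four]
  ring

lemma q_neg {n : ℕ} (A : Matrix (Fin n) (Fin n) ℝ) (x : Fin n → ℝ) : q A (-x) = q A x := by
  simp [q, Matrix.mulVec_neg]

/-- The abstract second-order sufficient condition. -/
lemma core {s p L U Hq Bq μ : ℝ} (hU : 0 ≤ U) (hH : U - 200 * L ^ 2 ≤ Hq)
    (hB : |Bq| ≤ 20 * U) (hrel : 2 * s * L + Bq = -p) (hp : 0 ≤ p) (hs : 1 / 2 ≤ s)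
    (hL : |L| ≤ 1 / 10000) (hμ : 1 ≤ μ) (hne : 0 < U ∨ 0 < p) : 0 < Hq + μ * p := by
  have h1 : |L| ≤ p + 20 * U := by
    have h2 : |2 * s * L| ≤ p + 20 * U := by
      have : 2 * s * L = -p - Bq := by linarith
      rw [this]
      rw [abs_le] at hB ⊢
      constructor <;> linarith [hB.1, hB.2]
    rw [abs_mul, abs_of_pos (by linarith : (0 : ℝ) < 2 * s)] at h2
    nlinarith [abs_nonneg L]
  have h3 : L ^ 2 ≤ 1 / 10000 * (p + 20 * U) := by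
    rw [← sq_abs, sq]
    exact mul_le_mul hL h1 (abs_nonneg _) (by norm_num)
  have h4 : p ≤ μ * p := by nlinarith
  rcases hne with h | h <;> nlinarith

/-- The three base points. -/
def e (i : Fin 3) : Fin 4 → ℝ := Pi.single i.castSucc 1

lemma feas_e (i : Fin 3) : e i ∈ feas M₁ M₂ := by
  fin_cases i <;> simp [feas, q2_eq, q1_eq, e, Fin.ext_iff]

lemma val_e (i : Fin 3) : q M₀ (e i) = ![-8, 0, 2] i := by
  fin_cases i <;> simp [q0_eq, e, Fin.ext_iff]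

lemma ev_ge (i : Fin 3) : ∀ᶠ y in 𝓝 (e i), 1 / 2 ≤ y i.castSucc := by
  have h : Continuous (fun y : Fin 4 → ℝ => y i.castSucc) := continuous_apply _
  have h1 : (1 : ℝ) / 2 < e i i.castSucc := by simp [e]; norm_num
  filter_upwards [(h.tendsto (e i)).eventually (lt_mem_nhds h1)] with y hy using le_of_lt hy

lemma ev_lin (i : Fin 3) (L : (Fin 4 → ℝ) → ℝ) (hL : Continuous L) (h0 : L (e i) = 0) :
    ∀ᶠ y in 𝓝 (e i), |L y| ≤ 1 / 10000 := by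
  have h : Continuous (fun y : Fin 4 → ℝ => |L y|) := hL.abs
  have h1 : |L (e i)| < (1 : ℝ) / 10000 := by rw [h0, abs_zero]; norm_num
  filter_upwards [(h.tendsto (e i)).eventually (gt_mem_nhds h1)] with y hy using le_of_lt hy

lemma ext4 {x y : Fin 4 → ℝ} (h0 : x 0 = y 0) (h1 : x 1 = y 1) (h2 : x 2 = y 2)
    (h3 : x 3 = y 3) : x = y := by
  funext i; fin_cases i
  · exact h0
  · exact h1
  · exact h2
  · exact h3

lemma e0 : e 0 = ![1, 0, 0, 0] := by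
  funext j; fin_cases j <;> simp [e, Fin.ext_iff]

lemma e1 : e 1 = ![0, 1, 0, 0] := by
  funext j; fin_cases j <;> simp [e, Fin.ext_iff]

lemma e2 : e 2 = ![0, 0, 1, 0] := by
  funext j; fin_cases j <;> simp [e, Fin.ext_iff]

lemma loc0 : ∀ᶠ y in 𝓝 (e 0), y ∈ feas M₁ M₂ → y ≠ e 0 → q M₀ (e 0) < q M₀ y := by
  filter_upwards [ev_ge 0, ev_lin 0 (fun y => 4 * y 1 - y 2 / 2 - 4 * y 3) (by fun_prop)
    (by simp [e0])] with y hs hL hy hne
  have hs' : 1 / 2 ≤ y 0 := hs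
  obtain ⟨h1, h2⟩ := hy
  rw [q2_eq, h1] at h2
  rw [q1_eq] at h1
  have hv : q M₀ (e 0) = -8 := by rw [val_e]; simp
  have hU : 0 < y 1 ^ 2 + y 2 ^ 2 + y 3 ^ 2 := by
    by_contra hcon
    have a1 : y 1 = 0 := by nlinarith [sq_nonneg (y 1), sq_nonneg (y 2), sq_nonneg (y 3)]
    have a2 : y 2 = 0 := by nlinarith [sq_nonneg (y 1), sq_nonneg (y 2), sq_nonneg (y 3)]
    have a3 : y 3 = 0 := by nlinarith [sq_nonneg (y 1), sq_nonneg (y 2), sq_nonneg (y 3)]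
    rw [a1, a2, a3] at h1
    have a0 : y 0 = 1 := by nlinarith
    exact hne (ext4 (by simp [e0, a0]) (by simp [e0, a1]) (by simp [e0, a2]) (by simp [e0, a3]))
  have key := core (s := y 0)
    (p := -(10 * y 3 ^ 2 + 8 * y 0 * y 1 - y 0 * y 2 + y 1 * y 2 / 2 - 8 * y 0 * y 3 + 2 * y 1 * y 3))
    (L := 4 * y 1 - y 2 / 2 - 4 * y 3) (U := y 1 ^ 2 + y 2 ^ 2 + y 3 ^ 2)
    (Hq := 8 * y 1 ^ 2 + 10 * y 2 ^ 2 + 15 / 2 * y 1 * y 2 - 2 * y 1 * y 3)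
    (Bq := 10 * y 3 ^ 2 + y 1 * y 2 / 2 + 2 * y 1 * y 3) (μ := 1)
    hU.le (by nlinarith [sq_nonneg (y 1 - 1585 / 12828 * y 2 - 1067 / 1069 * y 3),
      sq_nonneg (y 2 + 230460 / 515183 * y 3), sq_nonneg (y 3)])
    (by rw [abs_le]; constructor <;>
      nlinarith [sq_nonneg (y 1 - y 2), sq_nonneg (y 1 + y 2), sq_nonneg (y 1 - y 3),
        sq_nonneg (y 1 + y 3), sq_nonneg (y 1), sq_nonneg (y 2), sq_nonneg (y 3)])
    (by ring) (by linarith) hs' hL le_rfl (Or.inl hU)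
  rw [hv, q0_eq]
  nlinarith [key, h1]

lemma loc1 : ∀ᶠ y in 𝓝 (e 1), y ∈ feas M₁ M₂ → y ≠ e 1 → q M₀ (e 1) < q M₀ y := by
  filter_upwards [ev_ge 1, ev_lin 1 (fun y => 4 * y 0 + y 2 / 4 + y 3) (by fun_prop)
    (by simp [e1])] with y hs hL hy hne
  have hs' : 1 / 2 ≤ y 1 := hs
  obtain ⟨h1, h2⟩ := hy
  rw [q2_eq, h1] at h2
  rw [q1_eq] at h1
  have hv : q M₀ (e 1) = 0 := by rw [val_e]; simp
  have hU : 0 < y 0 ^ 2 + y 2 ^ 2 + y 3 ^ 2 := by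
    by_contra hcon
    have a1 : y 0 = 0 := by nlinarith [sq_nonneg (y 0), sq_nonneg (y 2), sq_nonneg (y 3)]
    have a2 : y 2 = 0 := by nlinarith [sq_nonneg (y 0), sq_nonneg (y 2), sq_nonneg (y 3)]
    have a3 : y 3 = 0 := by nlinarith [sq_nonneg (y 0), sq_nonneg (y 2), sq_nonneg (y 3)]
    rw [a1, a2, a3] at h1
    have a0 : y 1 = 1 := by nlinarith
    exact hne (ext4 (by simp [e1, a1]) (by simp [e1, a0]) (by simp [e1, a2]) (by simp [e1, a3]))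
  have key := core (s := y 1)
    (p := -(10 * y 3 ^ 2 + 8 * y 0 * y 1 - y 0 * y 2 + y 1 * y 2 / 2 - 8 * y 0 * y 3 + 2 * y 1 * y 3))
    (L := 4 * y 0 + y 2 / 4 + y 3) (U := y 0 ^ 2 + y 2 ^ 2 + y 3 ^ 2)
    (Hq := -8 * y 0 ^ 2 + 2 * y 2 ^ 2 + 2 * y 3 ^ 2 + 3 * y 0 * y 2 - 8 * y 0 * y 3)
    (Bq := 10 * y 3 ^ 2 - y 0 * y 2 - 8 * y 0 * y 3) (μ := 2)
    hU.le (by nlinarith [sq_nonneg (y 0 + 403 / 6382 * y 2 + 796 / 3191 * y 3),
      sq_nonneg (y 2 - 3376 / 9905 * y 3), sq_nonneg (y 3)])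
    (by rw [abs_le]; constructor <;>
      nlinarith [sq_nonneg (y 0 - y 2), sq_nonneg (y 0 + y 2), sq_nonneg (y 0 - y 3),
        sq_nonneg (y 0 + y 3), sq_nonneg (y 0), sq_nonneg (y 2), sq_nonneg (y 3)])
    (by ring) (by linarith) hs' hL (by norm_num) (Or.inl hU)
  rw [hv, q0_eq]
  nlinarith [key, h1]

lemma loc2 : ∀ᶠ y in 𝓝 (e 2), y ∈ feas M₁ M₂ → y ≠ e 2 → q M₀ (e 2) < q M₀ y := by
  filter_upwards [ev_ge 2, ev_lin 2 (fun y => -y 0 / 2 + y 1 / 4) (by fun_prop)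
    (by simp [e2])] with y hs hL hy hne
  have hs' : 1 / 2 ≤ y 2 := hs
  obtain ⟨h1, h2⟩ := hy
  rw [q2_eq, h1] at h2
  rw [q1_eq] at h1
  have hv : q M₀ (e 2) = 2 := by rw [val_e]; simp
  have hU : 0 < y 0 ^ 2 + y 1 ^ 2 + y 3 ^ 2 := by
    by_contra hcon
    have a1 : y 0 = 0 := by nlinarith [sq_nonneg (y 0), sq_nonneg (y 1), sq_nonneg (y 3)]
    have a2 : y 1 = 0 := by nlinarith [sq_nonneg (y 0), sq_nonneg (y 1), sq_nonneg (y 3)]
    have a3 : y 3 = 0 := by nlinarith [sq_nonneg (y 0), sq_nonneg (y 1), sq_nonneg (y 3)]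
    rw [a1, a2, a3] at h1
    have a0 : y 2 = 1 := by nlinarith
    exact hne (ext4 (by simp [e2, a1]) (by simp [e2, a2]) (by simp [e2, a0]) (by simp [e2, a3]))
  have key := core (s := y 2)
    (p := -(10 * y 3 ^ 2 + 8 * y 0 * y 1 - y 0 * y 2 + y 1 * y 2 / 2 - 8 * y 0 * y 3 + 2 * y 1 * y 3))
    (L := -y 0 / 2 + y 1 / 4) (U := y 0 ^ 2 + y 1 ^ 2 + y 3 ^ 2)
    (Hq := -10 * y 0 ^ 2 - 2 * y 1 ^ 2 + 40 * y 3 ^ 2 + 30 * y 0 * y 1 - 40 * y 0 * y 3 +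
      8 * y 1 * y 3)
    (Bq := 10 * y 3 ^ 2 + 8 * y 0 * y 1 - 8 * y 0 * y 3 + 2 * y 1 * y 3) (μ := 6)
    hU.le (by nlinarith [sq_nonneg (y 0 - 10 / 39 * y 1 - 20 / 39 * y 3),
      sq_nonneg (y 1 - 88 / 541 * y 3), sq_nonneg (y 3)])
    (by rw [abs_le]; constructor <;>
      nlinarith [sq_nonneg (y 0 - y 1), sq_nonneg (y 0 + y 1), sq_nonneg (y 0 - y 3),
        sq_nonneg (y 0 + y 3), sq_nonneg (y 1 - y 3), sq_nonneg (y 1 + y 3),
        sq_nonneg (y 0), sq_nonneg (y 1), sq_nonneg (y 3)])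
    (by ring) (by linarith) hs' hL (by norm_num) (Or.inl hU)
  rw [hv, q0_eq]
  nlinarith [key, h1]

/-- A feasible point with value below `-8`. -/
lemma low : ∃ y ∈ feas M₁ M₂, q M₀ y < -8 := by
  have hs : Real.sqrt 3437 ^ 2 = 3437 := Real.sq_sqrt (by norm_num)
  have hpos : 0 < Real.sqrt 3437 := by positivity
  set t := (Real.sqrt 3437)⁻¹ with ht
  have ht2 : t ^ 2 = 1 / 3437 := by rw [ht, inv_pow, hs]; norm_num
  refine ⟨![47 * t, 4 * t, 0, 32 * t], ⟨?_, ?_⟩, ?_⟩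
  · rw [q1_eq]; simp; nlinarith
  · rw [q2_eq, q1_eq]; simp; nlinarith
  · rw [q0_eq]; simp; nlinarith

lemma base (i : Fin 3) : StrictLocalNonglobal M₀ M₁ M₂ (e i) := by
  refine ⟨feas_e i, ?_, ?_⟩
  · rw [eventually_nhdsWithin_iff]
    fin_cases i
    · exact loc0
    · exact loc1
    · exact loc2
  · obtain ⟨y, hy, hlt⟩ := low
    refine ⟨y, hy, lt_of_lt_of_le hlt ?_⟩
    rw [val_e]
    fin_cases i <;> simp
    norm_num

lemma neg_mem {n : ℕ} {A₁ A₂ : Matrix (Fin n) (Fin n) ℝ} {x : Fin n → ℝ}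
    (h : x ∈ feas A₁ A₂) : -x ∈ feas A₁ A₂ := by
  obtain ⟨h1, h2⟩ := h
  exact ⟨by rw [q_neg]; exact h1, by rw [q_neg]; exact h2⟩

lemma neg_min {n : ℕ} {A₀ A₁ A₂ : Matrix (Fin n) (Fin n) ℝ} {x : Fin n → ℝ}
    (h : StrictLocalNonglobal A₀ A₁ A₂ x) : StrictLocalNonglobal A₀ A₁ A₂ (-x) := by
  obtain ⟨h1, h2, y, hy, hlt⟩ := h
  refine ⟨neg_mem h1, ?_, y, hy, by rw [q_neg]; exact hlt⟩
  rw [eventually_nhdsWithin_iff] at h2 ⊢
  have hc : Tendsto (fun z : Fin n → ℝ => -z) (𝓝 (-x)) (𝓝 x) := by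
    have := (continuous_neg (G := Fin n → ℝ)).tendsto (-x)
    rwa [neg_neg] at this
  filter_upwards [hc.eventually h2] with z hz hzf hne
  have := hz (neg_mem hzf) (fun h => hne (by rw [← h, neg_neg]))
  rwa [q_neg, ← q_neg A₀ x] at this

/-- The six points. -/
def pts (j : Fin 3 × Bool) : Fin 4 → ℝ := if j.2 then e j.1 else -e j.1

lemma pts_inj : Function.Injective pts := by
  rintro ⟨i, b⟩ ⟨j, c⟩ h
  have h' : ∀ k : Fin 4, pts (i, b) k = pts (j, c) k := fun k => congrFun h k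
  have h1 := h' i.castSucc
  have hij : i = j := by
    by_contra hne
    have hne' : i.castSucc ≠ j.castSucc := fun hh => hne (Fin.castSucc_injective 3 hh)
    cases b <;> cases c <;> simp [pts, e, hne'] at h1
  subst hij
  cases b <;> cases c <;> simp [pts, e] at h1 ⊢ <;> linarith

/-- There are symmetric matrices `A₀, A₁, A₂` of size four, with `A₁` positive definite, such that
the program `min {q₀ x : q₁ x = 1, q₂ x ≤ 1}` has at least six strict local non-global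
minimizers. -/
theorem result : ∃ A₀ A₁ A₂ : Matrix (Fin 4) (Fin 4) ℝ,
    A₀.IsSymm ∧ A₁.IsSymm ∧ A₂.IsSymm ∧ A₁.PosDef ∧
      6 ≤ {x | StrictLocalNonglobal A₀ A₁ A₂ x}.encard := by
  have hsym : M₁.IsSymm := by
    ext i j; fin_cases i <;> fin_cases j <;> simp [M₁]
  refine ⟨M₀, M₁, M₂, ?_, hsym, ?_, ?_, ?_⟩
  · ext i j; fin_cases i <;> fin_cases j <;> simp [M₀]
  · ext i j; fin_cases i <;> fin_cases j <;> simp [M₂]
  · refine Matrix.PosDef.of_dotProduct_mulVec_pos ?_ ?_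
    · rw [Matrix.IsHermitian, Matrix.conjTranspose_eq_transpose_of_trivial]; exact hsym
    · intro x hx
      have h := q1_eq x
      have h' : star x ⬝ᵥ (M₁ *ᵥ x) = q M₁ x := by simp [q]
      rw [h', h]
      have hne : ¬ (x 0 = 0 ∧ x 1 = 0 ∧ x 2 = 0 ∧ x 3 = 0) := by
        rintro ⟨a0, a1, a2, a3⟩
        exact hx (ext4 a0 a1 a2 a3)
      have hS : 0 < x 0 ^ 2 + x 1 ^ 2 + x 2 ^ 2 + x 3 ^ 2 := by
        by_contra hcon
        apply hne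
        refine ⟨?_, ?_, ?_, ?_⟩ <;>
          nlinarith [sq_nonneg (x 0), sq_nonneg (x 1), sq_nonneg (x 2), sq_nonneg (x 3)]
      nlinarith [sq_nonneg (x 0 + x 1 / 2 - x 2 / 4), sq_nonneg (x 1 + 5 / 6 * x 2),
        sq_nonneg (x 2), sq_nonneg (x 3), sq_nonneg (x 0), sq_nonneg (x 1),
        sq_nonneg (x 0 * 2 + x 1 * 2 - x 2), sq_nonneg (x 1 + x 2), sq_nonneg (x 0 - x 2),
        sq_nonneg (x 0 + x 1)]
  · have hsub : Set.range pts ⊆ {x | StrictLocalNonglobal M₀ M₁ M₂ x} := by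
      rintro _ ⟨⟨i, b⟩, rfl⟩
      cases b
      · exact neg_min (base i)
      · exact base i
    refine le_trans ?_ (Set.encard_le_encard hsub)
    have : (Set.range pts).encard = ENat.card (Fin 3 × Bool) := by
      rw [← Set.image_univ, pts_inj.encard_image, Set.encard_univ]
    rw [this]
    simp

end Pool.Agent.Results.MP_4a3f67_an.SixMinimizers
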